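import Mathlib
import Pool.Agent.GCN.Cone
import Pool.Agent.GCN.TwoG
import Pool.Agent.GCN.Prep

set_option autoImplicit false

/-!
# MP_ba18fc_co: cones over strongly regular graphs

Let `G` be a connected graph with exactly three distinct eigenvalues in which one vertex is adjacent
to all others and all the other vertices have the same valency. Then every connected graph with the
same spectrum has the same valency array.
-/

namespace Pool.Agent.Results.MP_ba18fc_co.ConesDetermined

open TE TS GCN Matrix

/-- the multiset of degrees of a graph in which one vertex has degree `n - 1` and the others `k` -/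
lemma arr_cone {n : ℕ} (F : SimpleGraph (Fin n)) [DecidableRel F.Adj] (z : Fin n) (k : ℕ)
    (hz1 : F.degree z = n - 1) (hz2 : ∀ y, y ≠ z → F.degree y = k) :
    Multiset.map (fun y => F.degree y) (Finset.univ : Finset (Fin n)).val =
      (n - 1) ::ₘ Multiset.replicate (n - 1) k := by
  have e1 : (Finset.univ : Finset (Fin n)) = insert z (Finset.univ.erase z) := by
    rw [Finset.insert_erase (Finset.mem_univ _)]
  rw [e1, Finset.insert_val_of_notMem (Finset.notMem_erase _ _), Multiset.map_cons, hz1]
  congr 1
  rw [Multiset.eq_replicate]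
  constructor
  · rw [Multiset.card_map]
    have : ((Finset.univ : Finset (Fin n)).erase z).card = n - 1 := by
      rw [Finset.card_erase_of_mem (Finset.mem_univ _), Finset.card_univ, Fintype.card_fin]
    exact this
  · intro b hb
    rw [Multiset.mem_map] at hb
    obtain ⟨y, hy, rfl⟩ := hb
    apply hz2
    have : y ∈ (Finset.univ : Finset (Fin n)).erase z := hy
    exact (Finset.mem_erase.mp this).1

/-- for a star the second eigenvalue is `0` -/
lemma star_theta {n : ℕ} {G : SimpleGraph (Fin n)} [DecidableRel G.Adj]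
    {T θ0 θ1 θ2 : ℝ} {α : Fin n → ℝ} (hD : Dat G T θ0 θ1 θ2 α)
    (hreg : ¬ ∃ d, G.IsRegularOfDegree d) (x : Fin n) (hadj : ∀ y, y ≠ x → G.Adj x y)
    (hk : ∀ y, y ≠ x → G.degree y = 1) (hn : 3 ≤ n) : θ1 = 0 := by
  classical
  obtain ⟨y1, hy1⟩ : ∃ y, y ≠ x := Fintype.exists_ne_of_one_lt_card (by rw [Fintype.card_fin]; omega) x
  obtain ⟨y2, hy2⟩ : ∃ y, y ∉ ({x, y1} : Finset (Fin n)) := by
    by_contra hcon
    push Not at hcon
    have h1 : (Finset.univ : Finset (Fin n)).card ≤ ({x, y1} : Finset (Fin n)).card :=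
      Finset.card_le_card fun z _ => hcon z
    have h2 := Finset.card_le_two (a := x) (b := y1)
    rw [Finset.card_univ, Fintype.card_fin] at h1
    omega
  rw [Finset.mem_insert, Finset.mem_singleton] at hy2
  push Not at hy2
  obtain ⟨hy2x, hy21⟩ := hy2
  have hN : ∀ y, y ≠ x → G.neighborFinset y = {x} := by
    intro y hy
    have h1 : (G.neighborFinset y).card = 1 := by
      rw [SimpleGraph.card_neighborFinset_eq_degree, hk y hy]
    obtain ⟨w, hw⟩ := Finset.card_eq_one.mp h1
    have h2 : x ∈ G.neighborFinset y := by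
      rw [SimpleGraph.mem_neighborFinset]; exact (hadj y hy).symm
    rw [hw, Finset.mem_singleton] at h2
    rw [hw, h2]
  have hna : ¬ G.Adj y1 y2 := by
    intro h
    have : y2 ∈ G.neighborFinset y1 := by rw [SimpleGraph.mem_neighborFinset]; exact h
    rw [hN y1 hy1, Finset.mem_singleton] at this
    exact hy2x this
  have h1 := hD.nadj y1 y2 (Ne.symm hy21) hna
  have h2 : cd G y1 y2 = 1 := by
    unfold cd
    rw [hN y1 hy1, hN y2 hy2x, Finset.inter_self, Finset.card_singleton]
  have h3 := hD.diag y1
  have h4 := hD.diag y2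
  rw [hk y1 hy1] at h3
  rw [hk y2 hy2x] at h4
  rw [h2] at h1
  have h5 : α y1 = α y2 :=
    (pow_left_inj₀ (hD.pos y1).le (hD.pos y2).le two_ne_zero).mp (by linarith)
  rw [← h5] at h1
  push_cast at h1 h3
  have h6 : θ1 * θ2 = 0 := by nlinarith
  have h7 := theta2_neg hD hreg
  rcases mul_eq_zero.mp h6 with h | h
  · exact h
  · linarith

/-- Main theorem. -/
theorem result : ∀ (n : ℕ) (G H : SimpleGraph (Fin n)) [DecidableRel G.Adj] [DecidableRel H.Adj],
    G.Connected → H.Connected →
    {μ : ℝ | ∃ v : Fin n → ℝ, v ≠ 0 ∧ (G.adjMatrix ℝ) *ᵥ v = μ • v}.ncard = 3 →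
    (G.adjMatrix ℝ).charpoly = (H.adjMatrix ℝ).charpoly →
    ∀ (x : Fin n) (k : ℕ), (∀ y, y ≠ x → G.Adj x y) → (∀ y, y ≠ x → G.degree y = k) →
      Multiset.map (fun y => G.degree y) (Finset.univ : Finset (Fin n)).val =
        Multiset.map (fun y => H.degree y) (Finset.univ : Finset (Fin n)).val := by
  intro n G H _ _ hG hH h3 hsp x k hadj hk
  classical
  obtain ⟨hset, T, T', θ0, θ1, θ2, α, α', hD, hD'⟩ := prep n G H hG hH h3 hsp
  by_cases hreg : ∃ d, G.IsRegularOfDegree d
  · exact arr_reg hD hD' (Or.inl hreg)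
  have hregH : ¬ ∃ d, H.IsRegularOfDegree d := by
    rintro ⟨d, hd⟩
    exact hreg ⟨d, regular_of hD' hD rfl d hd⟩
  -- degree of `x`
  have hx : G.degree x = n - 1 := by
    rw [← SimpleGraph.card_neighborFinset_eq_degree]
    have : G.neighborFinset x = Finset.univ.erase x := by
      ext z
      rw [SimpleGraph.mem_neighborFinset, Finset.mem_erase]
      constructor
      · intro hz; exact ⟨hz.ne', Finset.mem_univ _⟩
      · rintro ⟨hz, -⟩; exact hadj z hz
    rw [this, Finset.card_erase_of_mem (Finset.mem_univ _), Finset.card_univ, Fintype.card_fin]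
  have hkne : k ≠ n - 1 := by
    rintro rfl
    apply hreg
    refine ⟨n - 1, fun y => ?_⟩
    by_cases hy : y = x
    · rw [hy, hx]
    · exact hk y hy
  have hn2 : 2 ≤ n := by
    by_contra hcon
    have hn1 : n = 1 := by
      have : 0 < n := Fin.pos x
      omega
    subst hn1
    apply hreg
    refine ⟨0, fun y => ?_⟩
    have : y = x := Subsingleton.elim _ _
    rw [this, hx]
  obtain ⟨y, hy⟩ : ∃ y, y ≠ x := Fintype.exists_ne_of_one_lt_card (by rw [Fintype.card_fin]; omega) x
  have hk1 : 1 ≤ k := by
    rw [← hk y hy, ← SimpleGraph.card_neighborFinset_eq_degree]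
    apply Finset.card_pos.mpr
    exact ⟨x, by rw [SimpleGraph.mem_neighborFinset]; exact (hadj y hy).symm⟩
  have hkn : k < n - 1 := by
    have h1 := G.degree_lt_card_verts y
    rw [hk y hy, Fintype.card_fin] at h1
    omega
  by_cases hk2 : k = 1
  · -- the star
    have hθ := star_theta hD hreg x hadj (fun y hy => by rw [hk y hy, hk2]) (by omega)
    obtain ⟨s, hs⟩ := bip hD hreg hθ
    obtain ⟨t, ht⟩ := bip hD' hregH hθ
    exact bip_eq G H s t hs ht (sum_deg_eq hD hD')
  · have hk2' : 2 ≤ k := by omega
    have hx' : G.degree x = Fintype.card (Fin n) - 1 := by rw [Fintype.card_fin]; exact hx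
    have hkn' : k < Fintype.card (Fin n) - 1 := by rw [Fintype.card_fin]; exact hkn
    obtain ⟨S, K, p2, p1, p0, pn, pSK, pk⟩ := cone_params hD x k hx' hk hk2' hkn'
    have hn : (Fintype.card (Fin n) : ℝ) = S * ((K : ℝ) * (S + 1) - 1) + 1 := by
      rw [pn, p0]
    have hcomp : ∃ x', H.degree x' = Fintype.card (Fin n) - 1 ∧
        ∀ y, y ≠ x' → H.degree y = k := by
      rcases Nat.lt_or_ge S 3 with hS | hS
      · have hS2 : S = 2 := by
          interval_cases S
          · exfalso
            have := theta2_neg hD hreg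
            rw [p2] at this
            simp at this
          · exfalso
            push_cast at hn pk
            have h1 : ((Fintype.card (Fin n) : ℝ)) = k + 1 := by rw [hn, pk]; ring
            have h2 : Fintype.card (Fin n) = k + 1 := by exact_mod_cast h1
            omega
          · rfl
        subst hS2
        have hDH : Dat H T' (3 * (K : ℝ) - 1) ((K : ℝ) - 1) (-2) α' := by
          have e0 : 3 * (K : ℝ) - 1 = θ0 := by rw [p0]; push_cast; ring
          have e2 : (-2 : ℝ) = θ2 := by rw [p2]; push_cast; ring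
          rw [e0, ← p1, e2]
          exact hD'
        obtain ⟨x', h1, h2⟩ := two K (by omega) hDH (by rw [hn]; push_cast; ring)
        refine ⟨x', h1, fun y hy => ?_⟩
        rw [h2 y hy]
        have : (k : ℝ) + 2 = 3 * K := by rw [pk]; push_cast; ring
        have : k + 2 = 3 * K := by exact_mod_cast this
        omega
      · have hDH : Dat H T' ((K : ℝ) * (S + 1) - 1) ((K : ℝ) - 1) (-(S : ℝ)) α' := by
          rw [← p0, ← p1, ← p2]
          exact hD'
        exact compare S K hS pSK hDH hn k pk
    obtain ⟨x', hx1, hx2⟩ := hcomp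
    rw [Fintype.card_fin] at hx1
    rw [arr_cone G x k hx hk, arr_cone H x' k hx1 hx2]

end Pool.Agent.Results.MP_ba18fc_co.ConesDetermined
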