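import Mathlib
import Pool.Agent.TV.Eig

set_option autoImplicit false

/-!
# MP_ba18fc_co: the spectrum nearly determines the valency-array

Let `G` and `H` be connected graphs on `n` vertices whose adjacency matrices both have exactly the
eigenvalues `θ0 > θ1 > θ2`. Then there is a bijection `σ` of the vertices with
`∑ |deg_G x - deg_H (σ x)| ≤ 58 (θ1 - θ2) n`, and this sum is also at most
`2 (θ0 - θ1) (θ0 - θ2)`. The valencies of one graph are within `8 (θ1 - θ2) n` of a function with at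
most two values.

The proof: let `α` be the Perron vector with `(A - θ1)(A - θ2) = α αᵀ`, `S = ∑ α`. The eigenvectors
`A 1 - θ1 - S/(θ0 - θ2) α` and `A 1 - θ2 - S/(θ0 - θ1) α` have square norms which are linear in `S²`,
so `S²` lies in an interval `[X0, X0 + (θ1 - θ2) E]` given by the spectrum, and the entries of `α`
are on average at distance at most `2 (θ1 - θ2)/√(θ0 - θ2)` from the roots `u < v` of
`z² - S/(θ0 - θ2) z + θ1 (|θ2| - 1)`. The numbers `u²`, `v²` and the number of vertices near `v`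
depend on `S` only slightly.
-/

namespace Pool.Agent.Results.MP_ba18fc_co.CospectralValencies

open Finset TE TS TV

/-- Main theorem. -/
theorem result : ∀ (n : ℕ) (G H : SimpleGraph (Fin n)) [DecidableRel G.Adj] [DecidableRel H.Adj]
    (θ0 θ1 θ2 : ℝ), G.Connected → H.Connected → θ1 < θ0 → θ2 < θ1 →
    {μ : ℝ | ∃ v : Fin n → ℝ, v ≠ 0 ∧ Matrix.mulVec (G.adjMatrix ℝ) v = μ • v} = {θ0, θ1, θ2} →
    {μ : ℝ | ∃ v : Fin n → ℝ, v ≠ 0 ∧ Matrix.mulVec (H.adjMatrix ℝ) v = μ • v} = {θ0, θ1, θ2} →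
    (∃ σ : Equiv.Perm (Fin n),
      ∑ x, |(G.degree x : ℝ) - (H.degree (σ x) : ℝ)| ≤ 58 * (θ1 - θ2) * n ∧
      ∑ x, |(G.degree x : ℝ) - (H.degree (σ x) : ℝ)| ≤ 2 * ((θ0 - θ1) * (θ0 - θ2))) ∧
    ∃ a b : ℝ, ∑ x, min |(G.degree x : ℝ) - a| |(G.degree x : ℝ) - b| ≤ 8 * (θ1 - θ2) * n := by
  intro n G H _ _ θ0 θ1 θ2 hcG hcH h01 h12 hSG hSH
  obtain ⟨T, α, h⟩ := dat_of_set G hcG h01 h12 hSG
  obtain ⟨T', β, h'⟩ := dat_of_set H hcH h01 h12 hSH
  have hcardn : (Fintype.card (Fin n) : ℝ) = n := by rw [Fintype.card_fin]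
  have hn0 : (0 : ℝ) ≤ n := Nat.cast_nonneg _
  have hn : (0 : ℝ) < Fintype.card (Fin n) := by
    have := h.conn.nonempty
    exact_mod_cast Fintype.card_pos
  have hD : 0 < θ1 - θ2 := by linarith
  have hm : 0 < θ0 - θ2 := by linarith
  have hy : 0 < θ0 - θ1 := by linarith
  have hDn : 0 ≤ (θ1 - θ2) * n := mul_nonneg hD.le hn0
  have hmy : 0 ≤ (θ0 - θ1) * (θ0 - θ2) := mul_nonneg hy.le hm.le
  -- the regular case
  have hcase : (∀ x y, (G.degree x : ℝ) = (H.degree y : ℝ)) →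
      (∃ σ : Equiv.Perm (Fin n),
        ∑ x, |(G.degree x : ℝ) - (H.degree (σ x) : ℝ)| ≤ 58 * (θ1 - θ2) * n ∧
        ∑ x, |(G.degree x : ℝ) - (H.degree (σ x) : ℝ)| ≤ 2 * ((θ0 - θ1) * (θ0 - θ2))) ∧
      ∃ a b : ℝ, ∑ x, min |(G.degree x : ℝ) - a| |(G.degree x : ℝ) - b| ≤ 8 * (θ1 - θ2) * n := by
    intro hall
    have h0 : ∑ x, |(G.degree x : ℝ) - (H.degree ((Equiv.refl (Fin n)) x) : ℝ)| = 0 :=
      Finset.sum_eq_zero fun x _ => by rw [hall x (Equiv.refl _ x), sub_self, abs_zero]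
    obtain ⟨x0⟩ := h.conn.nonempty
    refine ⟨⟨Equiv.refl _, ?_, ?_⟩, (H.degree x0 : ℝ), (H.degree x0 : ℝ), ?_⟩
    · rw [h0]; linarith
    · rw [h0]; linarith
    · have : ∑ x, min |(G.degree x : ℝ) - (H.degree x0 : ℝ)| |(G.degree x : ℝ) - (H.degree x0 : ℝ)|
          = 0 := Finset.sum_eq_zero fun x _ => by rw [hall x x0, sub_self, abs_zero, min_self]
      rw [this]; linarith
  by_cases hregG : ∃ d, G.IsRegularOfDegree d
  · obtain ⟨d, hd⟩ := hregG
    refine hcase fun x y => ?_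
    rw [both_reg h h' hd y, hd x]
  by_cases hregH : ∃ d, H.IsRegularOfDegree d
  · obtain ⟨d, hd⟩ := hregH
    refine hcase fun x y => ?_
    rw [both_reg h' h hd x, hd y]
  have hθ1 := theta1_nonneg h hregG
  have hθ2 := theta2_le h
  obtain ⟨U, s, B, W⟩ := single h hθ1
  obtain ⟨U', s', B', W'⟩ := single h' hθ1
  have hc : 0 ≤ -(θ1 * θ2) - θ1 := by nlinarith
  obtain ⟨σ, hσ1, hσ2⟩ := W.main W' hy hD (by ring) hc hn
  rw [hcardn] at hσ1
  refine ⟨⟨σ, hσ1, by linarith⟩, ((U + s) / 2) ^ 2 + -(θ1 * θ2), ((U - s) / 2) ^ 2 + -(θ1 * θ2), ?_⟩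
  have hl := W.l1
  rw [hcardn] at hl
  refine le_trans (Finset.sum_le_sum fun x _ => ?_) hl
  unfold wt
  split_ifs
  · exact min_le_left _ _
  · exact min_le_right _ _

end Pool.Agent.Results.MP_ba18fc_co.CospectralValencies
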