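import Mathlib
import Pool.Agent.TV.Few
import Pool.Agent.TV.FewC
import Pool.Agent.TV.Eig
import Pool.Agent.TS.Zero

set_option autoImplicit false

/-!
# MP_ba18fc_co: graphs with three eigenvalues and few common neighbours

Let `G` be a connected graph on `n` vertices with exactly three distinct adjacency eigenvalues,
neither regular nor complete bipartite. If any two adjacent vertices have at most `r` common
neighbours then `n ≤ 3200 (r² + r)⁴`. If any two nonadjacent vertices have at most `r` common
neighbours then `n ≤ 51200 r⁸`.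

The proof: let `α` be the Perron vector with `(A - θ1)(A - θ2) = α αᵀ`. Then `n ≤ 3200 (max α)⁴`
(see `ValencySpread`). Nonadjacent `x`, `y` have `α_x α_y` common neighbours, so in the second case
all entries are at most `r`, except that of a dominating vertex, and in that case everything can be
computed. In the first case `0 ≤ α_x α_y + θ1 + θ2 ≤ r` for every edge; if `-(θ1 + θ2) ≤ r²` all
entries are at most `r² + r`, otherwise the neighbours of a vertex with `α_x > r` have equal entries,
and the graph is regular or complete bipartite.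
-/

namespace Pool.Agent.Results.MP_ba18fc_co.FewCommonNeighbours

open Finset TE TS TV

/-- Main theorem. -/
theorem result : ∀ (n : ℕ) (G : SimpleGraph (Fin n)) [DecidableRel G.Adj],
    G.Connected →
    {μ : ℝ | ∃ v : Fin n → ℝ, v ≠ 0 ∧ Matrix.mulVec (G.adjMatrix ℝ) v = μ • v}.ncard = 3 →
    (¬ ∃ d, G.IsRegularOfDegree d) →
    (¬ ∃ s : Set (Fin n), ∀ u v, G.Adj u v ↔ ¬ (u ∈ s ↔ v ∈ s)) →
    ∀ r : ℕ,
      ((∀ x y, G.Adj x y → (G.neighborFinset x ∩ G.neighborFinset y).card ≤ r) →
        n ≤ 3200 * (r ^ 2 + r) ^ 4) ∧
      ((∀ x y, x ≠ y → ¬ G.Adj x y → (G.neighborFinset x ∩ G.neighborFinset y).card ≤ r) →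
        n ≤ 51200 * r ^ 8) := by
  intro n G _ hc h3 hreg hbip r
  obtain ⟨θ0, θ1, θ2, h01, h12, hS⟩ := exists_three _ h3
  obtain ⟨T, α, h⟩ := dat_of_set G hc (by linarith) (by linarith) hS
  have hcardn : (Fintype.card (Fin n) : ℝ) = n := by rw [Fintype.card_fin]
  have h1 : 0 < θ1 := by
    rcases (theta1_nonneg h hreg).lt_or_eq with hpos | hzero
    · exact hpos
    · exact absurd (bip h hreg hzero.symm) hbip
  constructor
  · intro hlam
    have e1 := card_le_M h hreg h1 (M := (r : ℝ) ^ 2 + r) (few_triangles h hreg h1 hbip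
      (r := (r : ℝ)) (Nat.cast_nonneg _) (fun x y hxy => by
        have := hlam x y hxy
        unfold cd
        exact_mod_cast this))
    rw [hcardn] at e1
    exact_mod_cast e1
  · intro hmu
    have hr : 1 ≤ r := by
      obtain ⟨x, y, hxy, hn⟩ := exists_nonadj hreg
      obtain ⟨z, hz1, hz2⟩ := h.cd_pos_nonadj x y hxy hn
      have e1 := hmu x y hxy hn
      have e2 : 0 < (G.neighborFinset x ∩ G.neighborFinset y).card := by
        refine Finset.card_pos.mpr ⟨z, ?_⟩
        rw [Finset.mem_inter, SimpleGraph.mem_neighborFinset, SimpleGraph.mem_neighborFinset]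
        exact ⟨hz1, hz2⟩
      omega
    have e1 := few_common h hreg h1 (r := (r : ℝ)) (by exact_mod_cast hr) (fun x y hxy hn => by
        have := hmu x y hxy hn
        unfold cd
        exact_mod_cast this)
    rw [hcardn] at e1
    exact_mod_cast e1

end Pool.Agent.Results.MP_ba18fc_co.FewCommonNeighbours
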