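import Mathlib
import Pool.Agent.TV.Spread2
import Pool.Agent.TV.Eig
import Pool.Agent.TS.Zero

set_option autoImplicit false

/-!
# MP_ba18fc_co: the spread of the valencies of a graph with three eigenvalues

Let `G` be a connected graph on `n` vertices with exactly the eigenvalues `θ0 > θ1 > θ2`, neither
regular nor complete bipartite, `Δ` the largest and `δ` the smallest valency. Then
`n ≤ 5700 (Δ - δ)²`, `n² (δ + θ1 θ2) ≤ 400 Δ² (Δ + θ1 θ2)` and `n ≤ 3200 (Δ + θ1 θ2)²`.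

The proof: let `α` be the Perron vector with `(A - θ1)(A - θ2) = α αᵀ`, so `α_x² = deg x + θ1 θ2`,
`Q = ∑ α_x α_z (α_x - α_z)²` and `E = ∑ A_xy (α_x - α_y)²`. Two steps along edges give
`Q + (θ1 + θ2) E = ∑ (A²)_xz (α_x - α_z)² ≤ 4 Δ E`, hence `Q ≤ 5 Δ E`, and
`n E = 2 n ∑ α_x² (deg x - θ0) ≤ ∑ (α_x² - α_z²)² ≤ 4 (max α/min α) Q`, as the mean valency is at
most `θ0`. Therefore `n ≤ 20 (max α/min α) Δ`. The rest follows from
`(1 - θ1 θ2)² ≤ 2 ∑ α_x² ≤ 2 n (max α)²` and `max α - min α ≥ 1`.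
-/

namespace Pool.Agent.Results.MP_ba18fc_co.ValencySpread

open Finset TE TS TV

/-- Main theorem. -/
theorem result : ∀ (n : ℕ) (G : SimpleGraph (Fin n)) [DecidableRel G.Adj] (θ0 θ1 θ2 : ℝ),
    G.Connected → θ1 < θ0 → θ2 < θ1 →
    {μ : ℝ | ∃ v : Fin n → ℝ, v ≠ 0 ∧ Matrix.mulVec (G.adjMatrix ℝ) v = μ • v} = {θ0, θ1, θ2} →
    (¬ ∃ d, G.IsRegularOfDegree d) →
    (¬ ∃ s : Set (Fin n), ∀ u v, G.Adj u v ↔ ¬ (u ∈ s ↔ v ∈ s)) →
    (n : ℝ) ≤ 5700 * ((G.maxDegree : ℝ) - (G.minDegree : ℝ)) ^ 2 ∧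
    (n : ℝ) ^ 2 * ((G.minDegree : ℝ) + θ1 * θ2) ≤
      400 * (G.maxDegree : ℝ) ^ 2 * ((G.maxDegree : ℝ) + θ1 * θ2) ∧
    (n : ℝ) ≤ 3200 * ((G.maxDegree : ℝ) + θ1 * θ2) ^ 2 := by
  intro n G _ θ0 θ1 θ2 hc h01 h12 hS hreg hbip
  obtain ⟨T, α, h⟩ := dat_of_set G hc h01 h12 hS
  have hcardn : (Fintype.card (Fin n) : ℝ) = n := by rw [Fintype.card_fin]
  have h1 : 0 < θ1 := by
    rcases (theta1_nonneg h hreg).lt_or_eq with hpos | hzero
    · exact hpos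
    · exact absurd (bip h hreg hzero.symm) hbip
  obtain ⟨s1, s2⟩ := spread h hreg h1
  rw [hcardn] at s1 s2
  refine ⟨s1, s2, ?_⟩
  have hM0 : 0 ≤ (G.maxDegree : ℝ) + θ1 * θ2 := by
    obtain ⟨x⟩ := h.conn.nonempty
    have e1 : (G.degree x : ℝ) ≤ (G.maxDegree : ℝ) := by exact_mod_cast G.degree_le_maxDegree x
    rw [h.diag x] at e1
    have := sq_nonneg (α x)
    linarith
  have h2 := card_le_M h hreg h1 (M := √((G.maxDegree : ℝ) + θ1 * θ2)) (by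
    intro x
    apply Real.le_sqrt_of_sq_le
    have e1 : (G.degree x : ℝ) ≤ (G.maxDegree : ℝ) := by exact_mod_cast G.degree_le_maxDegree x
    rw [h.diag x] at e1
    linarith)
  rw [hcardn] at h2
  have h3 : √((G.maxDegree : ℝ) + θ1 * θ2) ^ 4 = ((G.maxDegree : ℝ) + θ1 * θ2) ^ 2 := by
    have : √((G.maxDegree : ℝ) + θ1 * θ2) ^ 4 = (√((G.maxDegree : ℝ) + θ1 * θ2) ^ 2) ^ 2 := by ring
    rw [this, Real.sq_sqrt hM0]
  rw [h3] at h2
  exact h2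

end Pool.Agent.Results.MP_ba18fc_co.ValencySpread
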